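import Pool.Agent.R512.U.FinF

/-!
# The asymptotic form of Elliott's conjecture: a uniform gap for all real valued multiplicative functions far from the
real characters, and more generally for functions some power of which is nearly real up to a twist; the other
functions are arbitrary
-/

set_option autoImplicit false

namespace Pool.Agent.Results.MP_f3f922_nt.UniformGapReal

open Finset

/-- `1`-bounded multiplicative functions on the positive integers -/
def IsMult (g : ℕ → ℂ) : Prop :=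
  (∀ n, ‖g n‖ ≤ 1) ∧ ∀ m n : ℕ, 1 ≤ m → 1 ≤ n → Nat.Coprime m n → g (m * n) = g m * g n

/-- `f(n)` times the conjugate of `χ(n) n ^ (i t)` -/
noncomputable def untwist (f : ℕ → ℂ) {Q : ℕ} (χ : DirichletCharacter ℂ Q) (t : ℝ) (n : ℕ) : ℂ :=
  f n * (starRingEnd ℂ) (χ (n : ZMod Q) * Complex.exp (((t * Real.log n : ℝ) : ℂ) * Complex.I))

/-- `|z| ^ (2 r) - Re z ^ (2 r)`, which vanishes when `z` is a nonnegative multiple of a root of unity of order
`2 r`; for `r = 1` it is twice the square of the imaginary part of `z` -/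
noncomputable def deficit (r : ℕ) (z : ℂ) : ℝ := ‖z‖ ^ (2 * r) - (z ^ (2 * r)).re

/-- for some character `χ` of modulus at most `B` and some `|t| ≤ T`, the values `z(p)` of `f(p)` times the conjugate
of `χ(p) p ^ (i t)` are near nonnegative multiples of roots of unity of order `2 r` (the sum of `deficit r z(p) / p`
over the primes in `(B, x]` is at most `κ`), and `Re z(p) ^ r` is far, up to `w`, from all real Dirichlet characters
`ψ` of modulus at most `A` (the sum over `p ≤ w` of `(1 - Re (z(p) ^ r) ψ(p)) / p` is at least `A`). For `r = 1` and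
a real valued `f` one can take `χ = 1`, `t = 0`, and only the last condition is left. -/
def NearRootsAndFar (r B : ℕ) (T κ : ℝ) (x A w : ℕ) (f : ℕ → ℂ) : Prop :=
  ∃ (Q : ℕ) (χ : DirichletCharacter ℂ Q) (t : ℝ), 1 ≤ Q ∧ Q ≤ B ∧ |t| ≤ T ∧
    ∑ p ∈ (Ioc B x).filter Nat.Prime, deficit r (untwist f χ t p) / (p : ℝ) ≤ κ ∧
    ∀ (q : ℕ) (ψ : DirichletCharacter ℂ q), 1 ≤ q → q ≤ A → ψ ^ 2 = 1 →
      (A : ℝ) ≤ ∑ p ∈ (Icc 1 w).filter Nat.Prime,
        (1 - (untwist f χ t p ^ r).re * (ψ ((p : ℕ) : ZMod q)).re) / (p : ℝ)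

/-- the correlation sum of `f 0, ..., f k` with shifts `h 0, ..., h k` up to `N` -/
noncomputable def corr {k : ℕ} (h : Fin (k + 1) → ℕ) (f : Fin (k + 1) → ℕ → ℂ) (N : ℕ) : ℂ :=
  ∑ n ∈ Icc 1 N, ∏ i, f i (n + h i)

open Classical in
/-- There are `c(r, k)` in `(0, 1)` such that for all `r ≥ 1`, all distinct shifts `h`, all `B`, `K` and all `η > 0`
there is `A` with the following property. Let `y ≥ 1`, `x ≥ A y`, `w ≥ A` with `w ≤ y` or `w ≤ (x / y) ^ K` (for
instance `w = y`, or `y = 1`, `w = x`, `K = 1`). For all `1`-bounded multiplicative functions `f 0, ..., f k` such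
that `f 0` is near nonnegative multiples of roots of unity of order `2 r` up to a twist by `χ(n) n ^ (i t)` of modulus
at most `B`, `|t| ≤ B y`, with power of order `r` far up to `w` from the real characters of modulus at most `A` (for
`r = 1`: any real valued `f 0` far up to `w` from these characters): the correlation sum up to `N` is at most
`(1 - c(r, k)) N` for all `N` in `(y, x]` outside a set of relative logarithmic density at most `η`, and the
logarithmic average of the correlation over `(y, x]` is at most `1 - c(r, k)`. -/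
theorem result : ∃ c : ℕ → ℕ → ℝ, (∀ r k, 0 < c r k ∧ c r k < 1) ∧ ∀ r : ℕ, 1 ≤ r →
    ∀ (k : ℕ) (h : Fin (k + 1) → ℕ), Function.Injective h → ∀ (B K : ℕ) (η : ℝ), 0 < η →
    ∃ A : ℕ, ∀ y w x : ℕ, 1 ≤ y → A * y ≤ x → A ≤ w → (w ≤ y ∨ w * y ^ K ≤ x ^ K) →
      ∀ f : Fin (k + 1) → ℕ → ℂ, (∀ i, IsMult (f i)) → NearRootsAndFar r B (B * y) (c r k) x A w (f 0) →
        ∑ N ∈ Ioc y x, (if (1 - c r k) * (N : ℝ) < ‖corr h f N‖ then (1 : ℝ) / N else 0) ≤
          η * Real.log ((x : ℝ) / y) ∧
        ‖∑ n ∈ Ioc y x, (∏ i, f i (n + h i)) / n‖ ≤ (1 - c r k) * Real.log ((x : ℝ) / y) := by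
  obtain ⟨c, hc, hU⟩ := Pool.Agent.R512.U.finRoot
  refine ⟨c, hc, fun r hr k h hinj B K η hη => ?_⟩
  obtain ⟨A, h1⟩ := hU r hr k h hinj B K η hη
  refine ⟨A, fun y w x hy hx hw hwy f hf hn => ?_⟩
  have h3 := h1 y w x hy hx hw hwy f hf hn
  refine ⟨le_trans (le_of_eq ?_) h3.1, h3.2⟩
  apply sum_congr rfl
  intro N _
  unfold corr
  split_ifs <;> rfl

end Pool.Agent.Results.MP_f3f922_nt.UniformGapReal
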