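import Pool.Agent.R512.U.Unif

/-!
# The asymptotic form of Elliott's conjecture: a uniform gap in windows of scales when one factor is near a twist of
a completely multiplicative function with values in the roots of unity, such as `w ^ Ω(n)`, and the others are
arbitrary
-/

set_option autoImplicit false

namespace Pool.Agent.Results.MP_f3f922_nt.UniformGapRootsOfUnity

open Finset

/-- `1`-bounded multiplicative functions on the positive integers -/
def IsMult (g : ℕ → ℂ) : Prop :=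
  (∀ n, ‖g n‖ ≤ 1) ∧ ∀ m n : ℕ, 1 ≤ m → 1 ≤ n → Nat.Coprime m n → g (m * n) = g m * g n

/-- completely multiplicative on the positive integers, with values in the roots of unity of order `M` -/
def IsRootMult (M : ℕ) (f : ℕ → ℂ) : Prop :=
  (∀ n, n ≠ 0 → f n ^ M = 1) ∧ ∀ m n : ℕ, m ≠ 0 → n ≠ 0 → f (m * n) = f m * f n

/-- some power of `f` is constant, not equal to one, at the primes (for instance `f(n) = w ^ Ω(n)`), or real
valued and at infinite pretentious distance from all real Dirichlet characters -/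
def HasAperiodicPower (f : ℕ → ℂ) : Prop := ∃ r : ℕ, (∃ w : ℂ, w ≠ 1 ∧ ∀ p : ℕ, p.Prime → f p ^ r = w) ∨
  ((∀ n : ℕ, n ≠ 0 → (f n ^ r) ^ 2 = 1) ∧ ∀ (Q : ℕ) (χ : DirichletCharacter ℂ Q), 1 ≤ Q → χ ^ 2 = 1 →
    ¬ Summable (fun p : Nat.Primes => (1 - (f p ^ r * χ ((p : ℕ) : ZMod Q)).re) / ((p : ℕ) : ℝ)))

/-- `f₀(n) χ(n) n ^ (i t)` for a Dirichlet character `χ` and a real `t` -/
noncomputable def twist (f₀ : ℕ → ℂ) {q : ℕ} (χ : DirichletCharacter ℂ q) (t : ℝ) (n : ℕ) : ℂ :=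
  f₀ n * χ (n : ZMod q) * Complex.exp (((t * Real.log n : ℝ) : ℂ) * Complex.I)

/-- for some character `χ` of modulus at most `A` and some `|t| ≤ T`, the square of the pretentious
distance from `f` to `f₀(n) χ(n) n ^ (i t)` over the primes in `(A, x]` is at most `δ` -/
def NearTwist (f₀ : ℕ → ℂ) (A : ℕ) (T δ : ℝ) (x : ℕ) (f : ℕ → ℂ) : Prop :=
  ∃ (q : ℕ) (χ : DirichletCharacter ℂ q) (t : ℝ), 1 ≤ q ∧ q ≤ A ∧ |t| ≤ T ∧
    ∑ p ∈ (Ioc A x).filter Nat.Prime, (1 - (f p * (starRingEnd ℂ) (twist f₀ χ t p)).re) / (p : ℝ) ≤ δ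

/-- the correlation sum of `f 0, ..., f k` with shifts `h 0, ..., h k` up to `N` -/
noncomputable def corr {k : ℕ} (h : Fin (k + 1) → ℕ) (f : Fin (k + 1) → ℕ → ℂ) (N : ℕ) : ℂ :=
  ∑ n ∈ Icc 1 N, ∏ i, f i (n + h i)

open Classical in
/-- There are `c(M, k) > 0` such that for all finite sets `𝓕` of completely multiplicative functions with values in
the roots of unity of order `M`, some power of which is constant `≠ 1` at the primes or real and aperiodic (for
instance all the functions `w ^ Ω(n)` with `w ^ M = 1`, `w ≠ 1`), all distinct shifts `h`, all `A` and all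
`η > 0`, once `log x / log (y + 1)` is large, uniformly over all `1`-bounded multiplicative functions
`f 0, ..., f k` such that `f 0` is near `f₀(n) χ(n) n ^ (i t)` with `f₀` in `𝓕`, conductor at most `A` and
`|t| ≤ A y`: the correlation sum up to `N` is at most `(1 - c(M, k)) N` for all `N` in `(y, x]` outside a set of
relative logarithmic density at most `η`, and the logarithmic average of the correlation over the window
`(y, x]` is at most `1 - c(M, k)`. -/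
theorem result : ∃ c : ℕ → ℕ → ℝ, (∀ M k, 0 < c M k) ∧ ∀ M : ℕ, 1 ≤ M →
    ∀ 𝓕 : Finset (ℕ → ℂ), (∀ f₀ ∈ 𝓕, IsRootMult M f₀ ∧ HasAperiodicPower f₀) →
    ∀ (k : ℕ) (h : Fin (k + 1) → ℕ), Function.Injective h → ∀ (A : ℕ) (η : ℝ), 0 < η →
    ∃ ω : ℕ, ∀ y x : ℕ, 1 ≤ y → (y + ω) ^ ω ≤ x →
      ∀ f : Fin (k + 1) → ℕ → ℂ, (∀ i, IsMult (f i)) →
      (∃ f₀ ∈ 𝓕, NearTwist f₀ A (A * y) (c M k) x (f 0)) →
      ∑ N ∈ Ioc y x, (if (1 - c M k) * (N : ℝ) < ‖corr h f N‖ then (1 : ℝ) / N else 0) ≤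
        η * Real.log ((x : ℝ) / y) ∧
      ‖∑ n ∈ Ioc y x, (∏ i, f i (n + h i)) / n‖ ≤ (1 - c M k) * Real.log ((x : ℝ) / y) := by
  obtain ⟨c, hc0, hU⟩ := Pool.Agent.R512.U.finKU
  refine ⟨c, hc0, fun M hM 𝓕 h𝓕 k h' hinj A η hη => ?_⟩
  obtain ⟨ω, hω⟩ := hU M hM 𝓕 (fun f₀ hf₀ => ⟨(h𝓕 f₀ hf₀).1.1, (h𝓕 f₀ hf₀).1.2, (h𝓕 f₀ hf₀).2⟩) k h' hinj A η hη
  refine ⟨ω, fun y x hy hx f hf hnear => ?_⟩
  have h1 := hω y x hy hx f hf hnear
  refine ⟨?_, h1.2⟩
  refine le_trans (le_of_eq ?_) h1.1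
  apply sum_congr rfl
  intro N _
  unfold corr
  split_ifs <;> rfl

end Pool.Agent.Results.MP_f3f922_nt.UniformGapRootsOfUnity
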