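import Pool.Agent.R459.Ell

/-!
# Elliott's conjecture with a displaced factor near a twisted Liouville function, uniformly in this factor, for all
shifts near almost all rearrangements of digits

Definitions used:
* in `Pool.Agent.R459.Tw`: `nit t n = n ^ (i t)`; `NearTwist δ B₁ Q f`: `f` is a multiplicative function bounded by `1`,
  and for some Dirichlet character `χ` of modulus `q ≤ Q` and some real `|t| ≤ Q` the sum of
  `|f p + χ p * p ^ (i t)| / p ^ (1 - δ)` over the primes `p` is at most `B₁`;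
* in `Pool.Agent.R459.Ell`: `ext f`: the extension by zero of `f` to the integers; `Weights T k a g`: the `a l ≥ 1` are
  integers, the `g l` functions bounded by `k ^ T`, and there are at most `k ^ T` of them; `Good`, `Elliott` and `Near`
  (see the theorem below);
* in `Pool.Agent.TH872.An`: `Spread b k η d`: the integers `d i` (`i < k`) are digits in base `b`, and no digit is taken
  at more than `(1 - η) k` of the `k` places `i`; `V b d σ`: the integer with the digit `d (σ i)` at the place `i`.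
-/

set_option autoImplicit false

namespace Pool.Agent.Results.MP_f3f922_nt.VariableDigitPermutations

open Finset Pool.Agent.R459.Ell Pool.Agent.TH872.An

/-- The number of the permutations `σ` of the `k` places with the property `E`. -/
noncomputable def num (k : ℕ) (E : Equiv.Perm (Fin k) → Prop) : ℝ :=
  (Nat.card {σ : Equiv.Perm (Fin k) // E σ} : ℝ)

lemma num_eq (k : ℕ) (E : Equiv.Perm (Fin k) → Prop) [DecidablePred E] : num k E = ((univ.filter E).card : ℝ) := by
  unfold num
  rw [Nat.card_eq_fintype_card, Fintype.card_subtype]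

lemma num_mono {k : ℕ} {E E' : Equiv.Perm (Fin k) → Prop} (h : ∀ σ, E σ → E' σ) : num k E ≤ num k E' := by
  classical
  rw [num_eq, num_eq, Nat.cast_le]
  apply card_le_card
  intro m hm
  rw [mem_filter] at hm ⊢
  exact ⟨hm.1, h m hm.2⟩

/-- Let `b ≥ 2`, `B`, `T`, `W`, `U`, `κ ≠ 0`, `η > 0`, `δ > 0` and `B₁` be fixed, let `k` be large and `N = b ^ k`, let
`d` be an arbitrary sequence of `k` digits in base `b` none of which is taken at more than `(1 - η) k` places, and let
`c` be an arbitrary integer with `|c| ≤ B N`.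

(1) Let `a l ≥ 1` and the weights `g l` be arbitrary (at most `k ^ T` of them, bounded by `k ^ T`). For all the
permutations `σ` of the `k` places, up to at most `k! / k ^ U` of them, all the shifts `h` at a distance of at most
`k ^ W` from `c + κ v`, where `v` has the permuted digits, are good: for ALL the `1`-bounded multiplicative functions
`f` such that `∑ |f p + χ p * p ^ (i t)| / p ^ (1 - δ) ≤ B₁` (the sum over the primes) for some Dirichlet character `χ`
of modulus at most `k ^ T` and some `|t| ≤ k ^ T`, all `l` and all `X ≤ B N / a l`,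
`|∑ n ≤ X, g l n * f (a l * n + h)| ≤ N / k ^ U`.

(2) Let `F 1, ..., F r` be arbitrary functions bounded by `1` (for example multiplicative ones) and `s 1, ..., s r`
arbitrary integers. For all the permutations `σ` up to at most `k! / k ^ U` of them, for all the shifts `h` at a
distance of at most `k ^ W` from `c + κ v`, all the functions `f` as in (1) and all `X ≤ B N`,
`|∑ n ≤ X, F 1 (n + s 1) ⋯ F r (n + s r) * f (n + h)| ≤ N / k ^ U`. -/
theorem result (b B T W U : ℕ) (hb : 2 ≤ b) (κ : ℤ) (hκ : κ ≠ 0) (η δ B₁ : ℝ) (hη : 0 < η) (hδ : 0 < δ) :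
    ∃ k₀ : ℕ, ∀ k : ℕ, k₀ ≤ k → ∀ N : ℕ, N = b ^ k → ∀ d : Fin k → ℕ, Spread b k η d → ∀ c : ℤ, |c| ≤ B * (N : ℤ) →
      (∀ (L : ℕ) (a : Fin L → ℕ) (g : Fin L → ℕ → ℂ), Weights T k a g →
        num k (fun σ => ¬ Near W k (Good δ B₁ B T U N k a g) (c + κ * (V b d σ : ℕ))) ≤ k.factorial / (k : ℝ) ^ U) ∧
      (∀ (r : ℕ) (F : Fin r → ℤ → ℂ) (s : Fin r → ℤ), (∀ j m, ‖F j m‖ ≤ 1) →
        num k (fun σ => ¬ Near W k (Elliott δ B₁ B T U N k F s) (c + κ * (V b d σ : ℕ))) ≤
          k.factorial / (k : ℝ) ^ U) := by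
  classical
  obtain ⟨T', U', E, k1, hUU, hpass⟩ := pass δ B₁ hδ B (B + κ.natAbs) T W U (Nat.le_add_right _ _)
  obtain ⟨k2, hperm⟩ := Pool.Agent.R459.perm_corr b hb Pool.Agent.H373R2.T7.liR Pool.Agent.W93.LM.nice_liR κ hκ η hη
    (B + κ.natAbs) T' W U'
  obtain ⟨k3, hpow⟩ := pow_le_exp b E 1 hb le_rfl
  have hgen : ∀ k : ℕ, k1 + k2 + k3 + b + 1 ≤ k → ∀ N : ℕ, N = b ^ k → ∀ d : Fin k → ℕ, Spread b k η d → ∀ c : ℤ,
      |c| ≤ B * (N : ℤ) → ∀ (L : ℕ) (a : Fin L → ℕ) (g : Fin L → ℕ → ℂ), Weights T k a g →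
        num k (fun σ => ¬ Near W k (Good δ B₁ B T U N k a g) (c + κ * (V b d σ : ℕ))) ≤ k.factorial / (k : ℝ) ^ U := by
    intro k hk N hN d hd c hc L a g hw
    have hk1 : (1 : ℝ) ≤ k := by exact_mod_cast (by omega : 1 ≤ k)
    have hEN : k ^ E ≤ N := by
      have := hpow k (by omega)
      rwa [one_mul, ← hN] at this
    have hlog : Real.log N ≤ (k : ℝ) ^ 2 := by
      have := log_pow_le b 1 k (by omega) (by omega)
      rwa [one_mul, ← hN] at this
    obtain ⟨L', α', g', hw', hbig⟩ := hpass k (by omega) N hEN hlog L a g hw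
    have hsize : ∀ σ : Equiv.Perm (Fin k), |c + κ * (V b d σ : ℕ)| ≤ ((B + κ.natAbs : ℕ) : ℤ) * (N : ℤ) := by
      intro σ
      have h3 : ((V b d σ : ℕ) : ℤ) < (b : ℤ) ^ k := by exact_mod_cast V_lt hd (by omega) σ
      have h4 : (0 : ℤ) ≤ ((V b d σ : ℕ) : ℤ) := Int.natCast_nonneg _
      have hNk : (N : ℤ) = (b : ℤ) ^ k := by rw [hN]; push_cast; rfl
      calc |c + κ * ((V b d σ : ℕ) : ℤ)| ≤ |c| + |κ * ((V b d σ : ℕ) : ℤ)| := abs_add_le _ _
        _ = |c| + |κ| * ((V b d σ : ℕ) : ℤ) := by rw [abs_mul, abs_of_nonneg h4]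
        _ ≤ B * (N : ℤ) + |κ| * (N : ℤ) := by
            have := mul_le_mul_of_nonneg_left h3.le (abs_nonneg κ)
            rw [hNk] at hc ⊢
            linarith
        _ = ((B + κ.natAbs : ℕ) : ℤ) * (N : ℤ) := by
            push_cast
            ring
    have hc' : |c| ≤ ((B + κ.natAbs : ℕ) : ℤ) * (b : ℤ) ^ k := by
      rw [hN] at hc
      push_cast at hc ⊢
      refine hc.trans ?_
      have h5 : (0 : ℤ) ≤ (b : ℤ) ^ k := by positivity
      have h6 := mul_nonneg (abs_nonneg κ) h5
      linarith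
    rw [num_eq]
    subst hN
    refine (hperm k (by omega) d hd c hc' L' α' g' hw'
      (fun σ => ¬ Near W k (Good δ B₁ B T U (b ^ k) k a g) (c + κ * (V b d σ : ℕ))) (fun σ hσ =>
        hbig _ (hsize σ) hσ)).trans ?_
    exact div_le_div_of_nonneg_left (Nat.cast_nonneg _) (by positivity) (pow_le_pow_right₀ hk1 hUU)
  refine ⟨k1 + k2 + k3 + b + 1, fun k hk N hN d hd c hc => ⟨hgen k hk N hN d hd c hc, fun r F s hF => ?_⟩⟩
  refine le_trans (num_mono fun σ hσ => of_elliott _ _ _ _ _ _ _ _ _ _ _ hσ)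
    (hgen k hk N hN d hd c hc 1 _ _ (elliott_wts T k (by omega) F hF s))

end Pool.Agent.Results.MP_f3f922_nt.VariableDigitPermutations
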