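import Pool.Agent.R459.Ell

/-!
# Elliott's conjecture with a displaced factor near a twisted Liouville function, uniformly in this factor, for all
shifts near almost all values of quadratic polynomials at integers with restricted digits

Definitions used:
* in `Pool.Agent.R459.Tw`: `nit t n = n ^ (i t)`; `NearTwist δ B₁ Q f`: `f` is a multiplicative function bounded by `1`,
  and for some Dirichlet character `χ` of modulus `q ≤ Q` and some real `|t| ≤ Q` the sum of
  `|f p + χ p * p ^ (i t)| / p ^ (1 - δ)` over the primes `p` is at most `B₁`;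
* in `Pool.Agent.R459.Ell`: `ext f`: the extension by zero of `f` to the integers; `Weights T k a g`: the `a l ≥ 1` are
  integers, the `g l` functions bounded by `k ^ T`, and there are at most `k ^ T` of them; `Good`, `Elliott` and `Near`
  (see the theorem below);
* in `Pool.Agent.TH872.GQ`: `S b D k`: the integers below `b ^ k` whose `i`-th digit in base `b` lies in `D i`, for all
  `i < k`; `value κ β c n = c + κ n ^ 2 + β n`.
-/

set_option autoImplicit false

namespace Pool.Agent.Results.MP_f3f922_nt.VariableQuadraticShifts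

open Finset Pool.Agent.R459.Ell Pool.Agent.TH872.GQ

open Classical in
/-- The number of the elements of the finite set `A` with the property `E`. -/
noncomputable def num (A : Finset ℕ) (E : ℕ → Prop) : ℝ := ((A.filter E).card : ℝ)

lemma num_eq (A : Finset ℕ) (E : ℕ → Prop) [DecidablePred E] : num A E = ((A.filter E).card : ℝ) := by
  unfold num
  congr!

lemma num_mono {A : Finset ℕ} {E E' : ℕ → Prop} (h : ∀ n, E n → E' n) : num A E ≤ num A E' := by
  classical
  rw [num_eq, num_eq, Nat.cast_le]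
  apply card_le_card
  intro m hm
  rw [mem_filter] at hm ⊢
  exact ⟨hm.1, h m hm.2⟩

/-- Let `b ≥ 2`, `B`, `T`, `W`, `U`, the integers `κ ≠ 0` and `β`, `δ > 0` and `B₁` be fixed, let `k` be large and
`N = b ^ (2 k)`. Let `D 0, ..., D (k - 1)` be arbitrary sets of at least two digits in base `b`, let `S` be the set of
the integers below `b ^ k` whose `i`-th digit lies in `D i` for all `i < k`, and let `c` be an arbitrary integer with
`|c| ≤ B N`.

(1) Let `a l ≥ 1` and the weights `g l` be arbitrary (at most `k ^ T` of them, bounded by `k ^ T`). For all the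
`m ∈ S`, up to at most `#S / k ^ U` of them, all the shifts `h` at a distance of at most `k ^ W` from
`c + κ m ^ 2 + β m` are good: for ALL the `1`-bounded multiplicative functions `f` such that
`∑ |f p + χ p * p ^ (i t)| / p ^ (1 - δ) ≤ B₁` (the sum over the primes) for some Dirichlet character `χ` of modulus at
most `k ^ T` and some `|t| ≤ k ^ T`, all `l` and all `X ≤ B N / a l`,
`|∑ n ≤ X, g l n * f (a l * n + h)| ≤ N / k ^ U`.

(2) Let `F 1, ..., F r` be arbitrary functions bounded by `1` (for example multiplicative ones) and `s 1, ..., s r`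
arbitrary integers. For all the `m ∈ S` up to at most `#S / k ^ U` of them, for all the shifts `h` at a distance of at
most `k ^ W` from `c + κ m ^ 2 + β m`, all the functions `f` as in (1) and all `X ≤ B N`,
`|∑ n ≤ X, F 1 (n + s 1) ⋯ F r (n + s r) * f (n + h)| ≤ N / k ^ U`. -/
theorem result (b B T W U : ℕ) (hb : 2 ≤ b) (κ β : ℤ) (hκ : κ ≠ 0) (δ B₁ : ℝ) (hδ : 0 < δ) :
    ∃ k₀ : ℕ, ∀ k : ℕ, k₀ ≤ k → ∀ N : ℕ, N = b ^ (2 * k) → ∀ D : ℕ → Finset ℕ,
      (∀ i < k, D i ⊆ range b ∧ 2 ≤ (D i).card) → ∀ c : ℤ, |c| ≤ B * (N : ℤ) →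
      (∀ (L : ℕ) (a : Fin L → ℕ) (g : Fin L → ℕ → ℂ), Weights T k a g →
        num (S b D k) (fun m => ¬ Near W k (Good δ B₁ B T U N k a g) (value κ β c m)) ≤ (S b D k).card / (k : ℝ) ^ U) ∧
      (∀ (r : ℕ) (F : Fin r → ℤ → ℂ) (s : Fin r → ℤ), (∀ j m, ‖F j m‖ ≤ 1) →
        num (S b D k) (fun m => ¬ Near W k (Elliott δ B₁ B T U N k F s) (value κ β c m)) ≤
          (S b D k).card / (k : ℝ) ^ U) := by
  classical
  obtain ⟨B', hB'⟩ : ∃ B' : ℕ, B' = B + κ.natAbs + β.natAbs := ⟨_, rfl⟩
  obtain ⟨T', U', E, k1, hUU, hpass⟩ := pass δ B₁ hδ B B' T W U (by omega)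
  obtain ⟨k2, hquad⟩ := Pool.Agent.R459.quad_corr b hb Pool.Agent.H373R2.T7.liR Pool.Agent.H373R2.T7.liR_norm
    Pool.Agent.H373R2.T7.sup_liou κ β hκ B' T' W U'
  obtain ⟨k3, hpow⟩ := pow_le_exp b E 2 hb (by norm_num)
  have hgen : ∀ k : ℕ, k1 + k2 + k3 + 2 * b + 1 ≤ k → ∀ N : ℕ, N = b ^ (2 * k) → ∀ D : ℕ → Finset ℕ,
      (∀ i < k, D i ⊆ range b ∧ 2 ≤ (D i).card) → ∀ c : ℤ, |c| ≤ B * (N : ℤ) →
      ∀ (L : ℕ) (a : Fin L → ℕ) (g : Fin L → ℕ → ℂ), Weights T k a g →
        num (S b D k) (fun m => ¬ Near W k (Good δ B₁ B T U N k a g) (value κ β c m)) ≤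
          (S b D k).card / (k : ℝ) ^ U := by
    intro k hk N hN D hD c hc L a g hw
    have hk1 : (1 : ℝ) ≤ k := by exact_mod_cast (by omega : 1 ≤ k)
    have hEN : k ^ E ≤ N := by
      have := hpow k (by omega)
      rwa [← hN] at this
    have hlog : Real.log N ≤ (k : ℝ) ^ 2 := by
      have := log_pow_le b 2 k (by omega) (by omega)
      rwa [← hN] at this
    obtain ⟨L', α', g', hw', hbig⟩ := hpass k (by omega) N hEN hlog L a g hw
    have hNk : (N : ℤ) = (b : ℤ) ^ k * (b : ℤ) ^ k := by
      rw [hN]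
      push_cast
      rw [two_mul, pow_add]
    have hbk : (1 : ℤ) ≤ (b : ℤ) ^ k := one_le_pow₀ (by exact_mod_cast (by omega : 1 ≤ b))
    have hsize : ∀ m ∈ S b D k, |value κ β c m| ≤ (B' : ℤ) * (N : ℤ) := by
      intro m hm
      have h1 : (m : ℤ) < (b : ℤ) ^ k := by
        have : m < b ^ k := by
          unfold S at hm
          exact mem_range.1 (mem_filter.1 hm).1
        exact_mod_cast this
      have h2 : (0 : ℤ) ≤ m := Int.natCast_nonneg _
      have h3 : (m : ℤ) ^ 2 ≤ N := by
        rw [hNk, pow_two]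
        exact mul_le_mul h1.le h1.le h2 (by omega)
      have h4 : (m : ℤ) ≤ N := by
        rw [hNk]
        nlinarith
      have h5 : |κ * (m : ℤ) ^ 2| ≤ |κ| * N := by
        rw [abs_mul, abs_of_nonneg (by positivity : (0 : ℤ) ≤ (m : ℤ) ^ 2)]
        exact mul_le_mul_of_nonneg_left h3 (abs_nonneg κ)
      have h6 : |β * (m : ℤ)| ≤ |β| * N := by
        rw [abs_mul, abs_of_nonneg h2]
        exact mul_le_mul_of_nonneg_left h4 (abs_nonneg β)
      unfold value
      calc |c + κ * (m : ℤ) ^ 2 + β * m| ≤ |c + κ * (m : ℤ) ^ 2| + |β * m| := abs_add_le _ _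
        _ ≤ |c| + |κ * (m : ℤ) ^ 2| + |β * m| := by
            have := abs_add_le c (κ * (m : ℤ) ^ 2)
            linarith
        _ ≤ B * N + |κ| * N + |β| * N := by linarith
        _ = (B' : ℤ) * (N : ℤ) := by
            rw [hB']
            push_cast
            ring
    have hc' : |c| ≤ (B' : ℤ) * (b : ℤ) ^ (2 * k) := by
      refine hc.trans ?_
      rw [hN]
      push_cast
      apply mul_le_mul_of_nonneg_right _ (by positivity)
      exact_mod_cast (by omega : B ≤ B')
    subst hN
    have key := hquad k (by omega) D hD c hc' L' α' g' hw'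
      (fun m => m ∈ S b D k ∧ ¬ Near W k (Good δ B₁ B T U (b ^ (2 * k)) k a g) (value κ β c m)) (fun m hm =>
        hbig _ (hsize m hm.1) hm.2)
    rw [num_eq]
    refine le_trans (le_of_eq ?_) (key.trans ?_)
    · congr 2
      apply filter_congr
      intro m hm
      exact ⟨fun h => ⟨hm, h⟩, fun h => h.2⟩
    · exact div_le_div_of_nonneg_left (Nat.cast_nonneg _) (by positivity) (pow_le_pow_right₀ hk1 hUU)
  refine ⟨k1 + k2 + k3 + 2 * b + 1, fun k hk N hN D hD c hc => ⟨hgen k hk N hN D hD c hc, fun r F s hF => ?_⟩⟩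
  refine le_trans (num_mono fun m hm => of_elliott _ _ _ _ _ _ _ _ _ _ _ hm)
    (hgen k hk N hN D hD c hc 1 _ _ (elliott_wts T k (by omega) F hF s))

end Pool.Agent.Results.MP_f3f922_nt.VariableQuadraticShifts
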